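import Pool.Agent.Helper13.PV.NotSmall

/-!
# Small varieties have Hopfian finitely generated groups
-/

namespace Pool.Agent.Helper13.NA

open Function Pool.Agent.Helper32.SmallVar Pool.Agent.Helper13.PV

variable {L : Set (FreeGroup ℕ)}

/-- In a small variety every finitely generated group is Hopfian. -/
theorem hopfian_of_small (hL : IsSmallVariety L) {G : Type} [Group G] (hfg : Group.FG G)
    (hG : SatisfiesLaws L G) : IsHopfian G := by
  by_contra hH
  obtain ⟨n, x, hx⟩ : ∃ (n : ℕ) (x : Fin n → G), Subgroup.closure (Set.range x) = ⊤ := by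
    obtain ⟨S, hS⟩ := hfg.out
    refine ⟨S.card, fun i => (S.equivFin.symm i : G), ?_⟩
    rw [← hS]
    congr 1
    ext g
    constructor
    · rintro ⟨i, rfl⟩
      exact (S.equivFin.symm i).2
    · intro hg
      exact ⟨S.equivFin ⟨g, hg⟩, by simp⟩
  unfold IsHopfian at hH
  push Not at hH
  obtain ⟨φ, hs, hi⟩ := hH
  obtain ⟨R, hR, hR2⟩ := main hx hs hi
  have : ∀ ε, (R ε).Normal := fun ε => (hR2 ε).1
  exact not_small_of_injective R hR (fun ε => laws_quotient hG (psi x φ) (R ε) (hR2 ε).2) hL

end Pool.Agent.Helper13.NA
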